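import Pool.Agent.X151.QC.Line

/-! Random conformal metrics: the theorems for surfaces. -/

set_option autoImplicit false
set_option linter.unusedSectionVars false
set_option linter.deprecated false

open Set Filter Topology MeasureTheory
open Pool.Agent.Y262.QE Pool.Agent.Y264.QR

noncomputable section

namespace Pool.Agent.X151.QC

variable {M : Type} [MetricSpace M] [CompactSpace M] [MeasurableSpace M] [BorelSpace M] [Nonempty M]
  {μ : Measure M} {D : Data M} (hD : D.IsSurf μ) {u : C(M, ℝ) → ℕ → M → ℝ}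
  {lam : C(M, ℝ) → ℕ → ℝ}
  (hu : ∀ φ, EigBasis (D.conf fun x => Real.exp (φ x)) (wm μ fun x => Real.exp (φ x))
    (u φ) (lam φ))

include hD hu in
theorem simple_surf [MeasurableSpace C(M, ℝ)] [BorelSpace C(M, ℝ)] (P : Measure C(M, ℝ))
    [IsProbabilityMeasure P] {S : Set C(M, ℝ)}
    (hS : Dense (Submodule.span ℝ S : Set C(M, ℝ)))
    (hP : ∀ h ∈ S, ∀ t : ℝ, P.map (fun φ => φ + t • h) ≪ P) :
    ∀ᵐ φ ∂P, ∀ p q : ℕ, p ≠ q → lam φ p = lam φ q → lam φ q = 0 := by
  have hf := (tFin M μ D hD).1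
  obtain ⟨i, a, hSf, hi, ha⟩ := tPackF M μ D hD inferInstance
  obtain ⟨b, hB, hF, -, -, -⟩ := tFm M μ (HF D μ) i a hSf
  have hW := tWl M μ D hD inferInstance i a b hSf hi ha hB
  choose e he1 he2 using fun φ => tBr M μ D hD i a b hSf hi ha hB hF φ (u φ) (lam φ) (hu φ)
  exact simple_form μ i a b hSf hB hW e lam he2 P S hS hP

include hD hu in
theorem line_surf (φ h : C(M, ℝ)) (J : ℕ → ℕ) (hJ : Tendsto J atTop atTop) :
    ∃ s : ℕ → ℕ, StrictMono s ∧ ∀ r : ℕ → ℕ, StrictMono r → ∀ᵐ t : ℝ,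
      Tendsto (fun N : ℕ => (∑ k ∈ Finset.range N, XX μ u h (φ + t • h) (J (s (r k)))) / N) atTop
        (𝓝 (AA μ h (φ + t • h))) := by
  have hf := (tFin M μ D hD).1
  obtain ⟨i, a, hSf, hi, ha⟩ := tPackF M μ D hD inferInstance
  obtain ⟨b, hB, hF, -, -, -⟩ := tFm M μ (HF D μ) i a hSf
  have hW := tWl M μ D hD inferInstance i a b hSf hi ha hB
  choose e he1 he2 using fun φ => tBr M μ D hD i a b hSf hi ha hB hF φ (u φ) (lam φ) (hu φ)
  obtain ⟨s, hs, h1⟩ := line_form μ i a b hSf hB hW e lam he2 φ h J hJ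
  refine ⟨s, hs, fun r hr => ?_⟩
  filter_upwards [h1 r hr] with t ht
  have hk : ∀ (f φ : C(M, ℝ)) (j : ℕ), kap μ i f φ (e φ j) = XX μ u f φ j := fun f φ j =>
    kap_eq μ i f φ _ _ (he1 φ j)
  have ha' : avg μ h (φ + t • h) = AA μ h (φ + t • h) := avg_eq μ h _
  simp only [hk, ha'] at ht
  have h2 := ht.add_const (AA μ h (φ + t • h))
  rw [zero_add] at h2
  refine h2.congr' ?_
  filter_upwards [eventually_ge_atTop 1] with N hN
  have hN1 : (0 : ℝ) < N := by exact_mod_cast hN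
  rw [Finset.sum_sub_distrib, Finset.sum_const, Finset.card_range, nsmul_eq_mul]
  field_simp
  ring

end Pool.Agent.X151.QC
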