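import Pool.Agent.X151.QC.Main

/-! Almost sure equidistribution in the mean along subsequences, for random conformal metrics. -/

set_option autoImplicit false
set_option linter.unusedSectionVars false

open Set Filter Topology MeasureTheory
open Pool.Agent.Y262.QE Pool.Agent.Y264.QR

noncomputable section

namespace Pool.Agent.X151.QC

variable {M : Type} [MetricSpace M] [CompactSpace M] [MeasurableSpace M] [BorelSpace M] [Nonempty M]
  {μ : Measure M} {D : Data M} (hD : D.IsSurf μ) {u : C(M, ℝ) → ℕ → M → ℝ}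
  {lam : C(M, ℝ) → ℕ → ℝ}
  (hu : ∀ φ, EigBasis (D.conf fun x => Real.exp (φ x)) (wm μ fun x => Real.exp (φ x))
    (u φ) (lam φ))
  [MeasurableSpace C(M, ℝ)] [BorelSpace C(M, ℝ)] (P : Measure C(M, ℝ)) [IsProbabilityMeasure P]
  {S : Set C(M, ℝ)} (hS : Dense (Submodule.span ℝ S : Set C(M, ℝ)))
  (hP : ∀ h ∈ S, ∀ t : ℝ, P.map (fun φ => φ + t • h) ≪ P)

include hD hu hS hP in
theorem basic : (∃ J : ℕ, ∀ (f : C(M, ℝ)) (j : ℕ), J ≤ j →
      AEStronglyMeasurable (fun φ : C(M, ℝ) => XX μ u f φ j) P) ∧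
    ∀ f : C(M, ℝ), ∀ χ : C(M, ℝ) → ℝ, Integrable χ P →
      Tendsto (fun j => ∫ φ, χ φ * XX μ u f φ j ∂P) atTop (𝓝 (∫ φ, χ φ * AA μ f φ ∂P)) := by
  obtain ⟨h1, h2⟩ := tTop M μ D hD P S hS hP u lam hu
  exact ⟨h1, fun f => (h2 f).1⟩

include hD hu hS hP in
theorem cesaro (J : ℕ → ℕ) (hJ : Tendsto J atTop atTop) :
    ∃ s : ℕ → ℕ, StrictMono s ∧ ∀ r : ℕ → ℕ, StrictMono r → ∀ᵐ φ ∂P, ∀ f : C(M, ℝ),
      Tendsto (fun N : ℕ => (∑ k ∈ Finset.range N, XX μ u f φ (J (s (r k)))) / N) atTop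
        (𝓝 (AA μ f φ)) := by
  have hfin := (tFin M μ D hD).1
  obtain ⟨⟨J₀, hJ₀⟩, hw⟩ := basic hD hu P hS hP
  obtain ⟨j₀, hj₀⟩ := eventually_atTop.mp (hJ.eventually_ge_atTop J₀)
  let F : ℕ → C(M, ℝ) := TopologicalSpace.denseSeq C(M, ℝ)
  have hAm : ∀ f : C(M, ℝ), AEStronglyMeasurable (fun φ => AA μ f φ) P := fun f =>
    (AA_cont (μ := μ) f).aestronglyMeasurable
  have hXm : ∀ (f : C(M, ℝ)) (j : ℕ),
      AEStronglyMeasurable (fun φ => XX μ u f φ (J (j + j₀))) P := fun f j =>
    hJ₀ f _ (hj₀ _ (Nat.le_add_left _ _))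
  obtain ⟨s, hs, hsr⟩ := komlos P
    (fun j m φ => XX μ u (F m) φ (J (j + j₀)) - AA μ (F m) φ) (fun m => 2 * ‖F m‖)
    (fun m => by positivity) (fun j m => (hXm (F m) j).sub (hAm (F m)))
    (fun j m => Eventually.of_forall fun φ => by
      have h1 := XX_le hu φ (J (j + j₀)) (F m)
      have h2 := AA_le hD hu φ (F m)
      calc |XX μ u (F m) φ (J (j + j₀)) - AA μ (F m) φ| ≤
            |XX μ u (F m) φ (J (j + j₀))| + |AA μ (F m) φ| := abs_sub _ _
        _ ≤ 2 * ‖F m‖ := by linarith)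
    (fun m χ hχ => by
      have h1 : Tendsto (fun j : ℕ => J (j + j₀)) atTop atTop :=
        hJ.comp (tendsto_add_atTop_nat j₀)
      have h2 := (hw (F m) χ hχ).comp h1
      have h3 := h2.sub_const (∫ φ, χ φ * AA μ (F m) φ ∂P)
      rw [sub_self] at h3
      refine h3.congr fun j => ?_
      have i1 : Integrable (fun φ => χ φ * XX μ u (F m) φ (J (j + j₀))) P := by
        have := hχ.bdd_mul (c := ‖F m‖) (hXm (F m) j)
          (Eventually.of_forall fun φ => by rw [Real.norm_eq_abs]; exact XX_le hu φ _ (F m))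
        refine this.congr (Eventually.of_forall fun φ => mul_comm _ _)
      have i2 : Integrable (fun φ => χ φ * AA μ (F m) φ) P := by
        have := hχ.bdd_mul (c := ‖F m‖) (hAm (F m))
          (Eventually.of_forall fun φ => by rw [Real.norm_eq_abs]; exact AA_le hD hu φ (F m))
        refine this.congr (Eventually.of_forall fun φ => mul_comm _ _)
      simp only [Function.comp_apply]
      rw [← integral_sub i1 i2]
      refine integral_congr_ae (Eventually.of_forall fun φ => ?_)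
      change χ φ * XX μ u (F m) φ (J (j + j₀)) - χ φ * AA μ (F m) φ =
        χ φ * (XX μ u (F m) φ (J (j + j₀)) - AA μ (F m) φ)
      ring)
  refine ⟨fun k => s k + j₀, fun a b hab => by have := hs hab; change s a + j₀ < s b + j₀; omega,
    fun r hr => ?_⟩
  filter_upwards [hsr r hr] with φ hφ f
  refine cesaro_all (x := fun k f => XX μ u f φ (J (s (r k) + j₀))) (a := fun f => AA μ f φ)
    (fun k f g => XX_sub hu φ _ f g) (fun f g => AA_sub hD hu φ f g) (Set.range F)
    (TopologicalSpace.denseRange_denseSeq _) ?_ f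
  rintro _ ⟨m, rfl⟩
  exact hφ m

include hD hu hS hP in
theorem between (J : ℕ → ℕ) (hJ : Tendsto J atTop atTop) :
    ∀ᵐ φ ∂P, ∀ (f : C(M, ℝ)) (ε : ℝ), 0 < ε →
      (∃ᶠ k in atTop, XX μ u f φ (J k) < AA μ f φ + ε) ∧
      ∃ᶠ k in atTop, AA μ f φ - ε < XX μ u f φ (J k) := by
  obtain ⟨s, hs, h⟩ := cesaro hD hu P hS hP J hJ
  filter_upwards [h id strictMono_id] with φ hφ f ε hε
  have h1 := frequently_lt hε (hφ f)
  have h2 := frequently_lt hε (hφ (-f))
  refine ⟨hs.tendsto_atTop.frequently (p := fun k => XX μ u f φ (J k) < AA μ f φ + ε) h1, ?_⟩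
  have h3 : ∃ᶠ k in atTop, XX μ u (-f) φ (J k) < AA μ (-f) φ + ε :=
    hs.tendsto_atTop.frequently (p := fun k => XX μ u (-f) φ (J k) < AA μ (-f) φ + ε) h2
  refine h3.mono fun k hk => ?_
  have e1 : XX μ u (-f) φ (J k) = -XX μ u f φ (J k) := by
    simp only [XX, ContinuousMap.neg_apply, neg_mul, integral_neg]
  have e2 : AA μ (-f) φ = -AA μ f φ := by
    simp only [AA, ContinuousMap.neg_apply, integral_neg, neg_div]
  rw [e1, e2] at hk
  linarith

/-- continuous functions which decrease to the indicator function of a closed set -/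
def th (K : Set M) (n : ℕ) : C(M, ℝ) :=
  ⟨fun x => (thickenedIndicator (show (0 : ℝ) < 1 / ((n : ℝ) + 1) by positivity) K x : ℝ),
    by fun_prop⟩

omit [Nonempty M] [MeasurableSpace M] [BorelSpace M] [CompactSpace M] in
theorem th_one {K : Set M} (n : ℕ) {x : M} (hx : x ∈ K) :
    ((thickenedIndicator (show (0 : ℝ) < 1 / ((n : ℝ) + 1) by positivity) K x : NNReal) : ℝ) = 1 := by
  rw [thickenedIndicator_one _ _ hx]; rfl

include hD hu hS hP in
theorem concentration (K : Set M) (hK : IsClosed K) (η : ℝ) (hη : 0 < η) (ε : ℝ) (hε : 0 < ε) :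
    ∀ᶠ j in atTop, P {φ | η ≤ ∫ x in K, (u φ j x) ^ 2 ∂(ar μ φ)} ≤
      ENNReal.ofReal ((∫ φ, (ar μ φ).real K / (ar μ φ).real univ ∂P) / η + ε) := by
  have hfin := (tFin M μ D hD).1
  obtain ⟨⟨J₀, hJ₀⟩, hw⟩ := basic hD hu P hS hP
  -- the functions
  have h0 : ∀ n x, 0 ≤ th K n x := fun n x => NNReal.coe_nonneg _
  have h1 : ∀ n x, th K n x ≤ 1 := fun n x => by
    have := thickenedIndicator_le_one (show (0 : ℝ) < 1 / ((n : ℝ) + 1) by positivity) K x
    change ((thickenedIndicator _ K x : NNReal) : ℝ) ≤ 1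
    exact_mod_cast this
  have hK1 : ∀ n, ∀ x ∈ K, th K n x = 1 := fun n x hx => th_one n hx
  -- the mean values converge
  have hlim : Tendsto (fun n : ℕ => ∫ φ, AA μ (th K n) φ ∂P) atTop
      (𝓝 (∫ φ, (ar μ φ).real K / (ar μ φ).real univ ∂P)) := by
    refine tendsto_integral_of_dominated_convergence (fun _ => (1 : ℝ))
      (fun n => (AA_cont (μ := μ) _).aestronglyMeasurable) (integrable_const _) ?_ ?_
    · intro n
      refine Eventually.of_forall fun φ => ?_
      rw [Real.norm_eq_abs]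
      refine (AA_le hD hu φ _).trans ?_
      refine (ContinuousMap.norm_le _ zero_le_one).mpr fun x => ?_
      rw [Real.norm_eq_abs, abs_of_nonneg (h0 n x)]
      exact h1 n x
    · refine Eventually.of_forall fun φ => ?_
      have hf := ar_finite hD φ
      refine Tendsto.div_const ?_ _
      have h2 := tendsto_lintegral_thickenedIndicator_of_isClosed (ar μ φ) hK
        (δs := fun n : ℕ => 1 / ((n : ℝ) + 1)) (fun n => by positivity)
        tendsto_one_div_add_atTop_nhds_zero_nat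
      have h3 := (ENNReal.tendsto_toReal (measure_ne_top (ar μ φ) K)).comp h2
      refine h3.congr fun n => ?_
      simp only [Function.comp_apply]
      have h4 : ∫ x, th K n x ∂(ar μ φ) = (∫⁻ x, ENNReal.ofReal (th K n x) ∂(ar μ φ)).toReal :=
        integral_eq_lintegral_of_nonneg_ae (Eventually.of_forall (h0 n))
          (th K n).continuous.aestronglyMeasurable
      rw [h4]
      congr 1
      refine lintegral_congr fun x => ?_
      change _ = ENNReal.ofReal ((thickenedIndicator _ K x : NNReal) : ℝ)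
      rw [ENNReal.ofReal_coe_nnreal]
  obtain ⟨n, hn⟩ := (hlim.eventually (gt_mem_nhds (show (∫ φ, (ar μ φ).real K /
    (ar μ φ).real univ ∂P) < (∫ φ, (ar μ φ).real K / (ar μ φ).real univ ∂P) + η * ε by
      have := mul_pos hη hε; linarith))).exists
  have h2 := hw (th K n) (fun _ => 1) (integrable_const _)
  simp only [one_mul] at h2
  filter_upwards [h2.eventually (gt_mem_nhds hn), eventually_ge_atTop J₀] with j hj hj0
  have hm := hJ₀ (th K n) j hj0
  have hi : Integrable (fun φ => XX μ u (th K n) φ j) P :=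
    Integrable.of_bound hm ‖th K n‖ (Eventually.of_forall fun φ => by
      rw [Real.norm_eq_abs]; exact XX_le hu φ j _)
  have h3 : {φ | η ≤ ∫ x in K, (u φ j x) ^ 2 ∂(ar μ φ)} ⊆ {φ | η ≤ XX μ u (th K n) φ j} := by
    intro φ hφ
    have hφ' : η ≤ ∫ x in K, (u φ j x) ^ 2 ∂(ar μ φ) := hφ
    refine hφ'.trans ?_
    have e1 : ∫ x in K, (u φ j x) ^ 2 ∂(ar μ φ) =
        ∫ x, K.indicator (fun x => (u φ j x) ^ 2) x ∂(ar μ φ) :=
      (integral_indicator hK.measurableSet).symm
    rw [e1]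
    refine integral_mono ((sq_int hu φ j).indicator hK.measurableSet)
      (integrable_mul (sq_int hu φ j) _) fun x => ?_
    change K.indicator (fun x => (u φ j x) ^ 2) x ≤ th K n x * (u φ j x) ^ 2
    by_cases hx : x ∈ K
    · rw [indicator_of_mem hx, hK1 n x hx, one_mul]
    · rw [indicator_of_notMem hx]
      exact mul_nonneg (h0 n x) (sq_nonneg _)
  have h4 : η * P.real {φ | η ≤ XX μ u (th K n) φ j} ≤ ∫ φ, XX μ u (th K n) φ j ∂P :=
    mul_meas_ge_le_integral_of_nonneg (Eventually.of_forall fun φ =>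
      integral_nonneg fun x => mul_nonneg (h0 n x) (sq_nonneg _)) hi η
  have h5 : P.real {φ | η ≤ XX μ u (th K n) φ j} ≤
      (∫ φ, (ar μ φ).real K / (ar μ φ).real univ ∂P) / η + ε := by
    have h6 : η * P.real {φ | η ≤ XX μ u (th K n) φ j} ≤
        (∫ φ, (ar μ φ).real K / (ar μ φ).real univ ∂P) + η * ε := h4.trans hj.le
    rw [← mul_le_mul_iff_right₀ hη]
    refine h6.trans (le_of_eq ?_)
    field_simp
  refine (measure_mono h3).trans ?_
  rw [← ofReal_measureReal (measure_ne_top P _)]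
  exact ENNReal.ofReal_le_ofReal h5

end Pool.Agent.X151.QC
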