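import Pool.Agent.X151.QC.Slln

/-! A subsequence of a weakly convergent bounded sequence all of whose subsequences have almost surely
convergent averages. -/

set_option autoImplicit false

open Set Filter Topology MeasureTheory

namespace Pool.Agent.X151.QC

theorem komlos {Ω : Type} [MeasurableSpace Ω] (P : Measure Ω) [IsProbabilityMeasure P]
    (Y : ℕ → ℕ → Ω → ℝ) (K : ℕ → ℝ) (hK : ∀ m, 0 ≤ K m)
    (hm : ∀ j m, AEStronglyMeasurable (Y j m) P)
    (hb : ∀ j m, ∀ᵐ o ∂P, |Y j m o| ≤ K m)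
    (hw : ∀ m, ∀ χ : Ω → ℝ, Integrable χ P →
      Tendsto (fun j => ∫ o, χ o * Y j m o ∂P) atTop (𝓝 0)) :
    ∃ s : ℕ → ℕ, StrictMono s ∧ ∀ r : ℕ → ℕ, StrictMono r →
      ∀ᵐ o ∂P, ∀ m, Tendsto (fun N : ℕ => (∑ k ∈ Finset.range N, Y (s (r k)) m o) / N) atTop
        (𝓝 0) := by
  classical
  have hint : ∀ j m, Integrable (Y j m) P := fun j m =>
    Integrable.of_bound (hm j m) (K m) (by
      filter_upwards [hb j m] with o ho
      rwa [Real.norm_eq_abs])
  have h1 : ∀ n : ℕ, ∃ N : ℕ, ∀ j, N ≤ j → ∀ l ≤ n, ∀ m ≤ n,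
      |∫ o, Y l m o * Y j m o ∂P| ≤ (1 / 2 : ℝ) ^ (n + 1) := by
    intro n
    have h2 : ∀ᶠ j in atTop, ∀ l ∈ Finset.range (n + 1), ∀ m ∈ Finset.range (n + 1),
        |∫ o, Y l m o * Y j m o ∂P| ≤ (1 / 2 : ℝ) ^ (n + 1) := by
      rw [Filter.eventually_all_finset]
      intro l _
      rw [Filter.eventually_all_finset]
      intro m _
      have h3 := hw m (Y l m) (hint l m)
      have h4 := h3.abs
      rw [abs_zero] at h4
      exact (h4.eventually (gt_mem_nhds (by positivity))).mono fun j hj => hj.le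
    obtain ⟨N, hN⟩ := eventually_atTop.mp h2
    exact ⟨N, fun j hj l hl m hm' => hN j hj l (Finset.mem_range.mpr (by omega)) m
      (Finset.mem_range.mpr (by omega))⟩
  choose F hF using h1
  let s : ℕ → ℕ := fun k => Nat.rec 0 (fun _ x => max (F x) (x + 1)) k
  have hs : ∀ k, s (k + 1) = max (F (s k)) (s k + 1) := fun k => rfl
  have hmono : StrictMono s := strictMono_nat_of_lt_succ fun k => by
    rw [hs]; exact lt_of_lt_of_le (Nat.lt_succ_self _) (le_max_right _ _)
  refine ⟨s, hmono, fun r hr => ae_all_iff.mpr fun m => ?_⟩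
  refine slln P (fun k => Y (s (r k)) m) (K m) (hK m) (fun k => hm _ _) (fun k => hb _ _) (m + 1) ?_
  intro l k hk hlk
  have hrk : k ≤ r k := hr.id_le k
  have hrl : r l < r k := hr hlk
  obtain ⟨κ, hκ⟩ : ∃ κ, r k = κ + 1 := ⟨r k - 1, by omega⟩
  have hκ1 : κ ≤ s κ := hmono.id_le κ
  have h2 := hF (s κ) (s (κ + 1)) (by rw [hs]; exact le_max_left _ _) (s (r l))
    (hmono.monotone (by omega)) m (by omega)
  rw [hκ]
  have h3 : (fun o => Y (s (κ + 1)) m o * Y (s (r l)) m o) =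
      fun o => Y (s (r l)) m o * Y (s (κ + 1)) m o := by
    funext o; ring
  rw [h3]
  refine h2.trans ?_
  exact pow_le_pow_of_le_one (by norm_num) (by norm_num) (by omega)

end Pool.Agent.X151.QC
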