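import Pool.Agent.X151.QC.Spec
import Pool.Agent.X151.QC.Cesaro

/-! One-parameter families of metrics. -/

set_option autoImplicit false
set_option linter.unusedSectionVars false
set_option linter.deprecated false

open Set Filter Topology MeasureTheory ProbabilityTheory
open Pool.Agent.Y262.QE Pool.Agent.Y264.QR

noncomputable section

namespace Pool.Agent.X151.QC

theorem line_form {M : Type} [MetricSpace M] [CompactSpace M] [MeasurableSpace M] [BorelSpace M]
    (μ : Measure M) [IsFiniteMeasure μ]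
    {H : Type} [NormedAddCommGroup H] [InnerProductSpace ℝ H]
    (i : H →L[ℝ] Lp ℝ 2 μ) (a : H →L[ℝ] H →L[ℝ] ℝ) (b : C(M, ℝ) → H →L[ℝ] H →L[ℝ] ℝ)
    (hSf : Sf μ i a) (hB : IsB μ i b) (hW : Wl μ a b) (e : C(M, ℝ) → ℕ → H)
    (E : C(M, ℝ) → ℕ → ℝ) (hEg : ∀ φ, Eg a (b φ) (e φ) (E φ)) (φ h : C(M, ℝ))
    (J : ℕ → ℕ) (hJ : Tendsto J atTop atTop) :
    ∃ s : ℕ → ℕ, StrictMono s ∧ ∀ r : ℕ → ℕ, StrictMono r → ∀ᵐ t : ℝ,
      Tendsto (fun N : ℕ => (∑ k ∈ Finset.range N,
        (kap μ i h (φ + t • h) (e (φ + t • h) (J (s (r k)))) - avg μ h (φ + t • h))) / N) atTop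
        (𝓝 0) := by
  classical
  obtain ⟨b', hB', hFmb, hpos, hcomp, hk⟩ := tFm M μ H i a hSf
  have hbb : b' = b := by
    funext φ
    ext u v
    rw [hB' φ u v, hB φ u v]
  subst hbb
  obtain ⟨hnn, hmon, hexp, hcont, hdich⟩ := tLip M μ H a b' hFmb hcomp
  obtain ⟨J₀, hJ₀⟩ : ∃ J₀ : ℕ, ∀ j, J₀ ≤ j → ∀ φ, 0 < Ev a (b' φ) j := by
    have h1 := hW 0
    have h2 : (0 : ℝ) < 4 * Real.pi / ∫ x, Real.exp ((0 : C(M, ℝ)) x) ∂μ := by
      have := hpos 0
      have := Real.pi_pos
      positivity
    obtain ⟨J, hJ⟩ := eventually_atTop.mp (h1.eventually (lt_mem_nhds h2))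
    refine ⟨J, fun j hj => ?_⟩
    rcases hdich j with h3 | h3
    · have h4 := hJ j hj
      rw [h3 0, zero_div] at h4
      exact absurd h4 (lt_irrefl _)
    · exact h3
  obtain ⟨j₀, hj₀⟩ := eventually_atTop.mp (hJ.eventually_ge_atTop J₀)
  obtain ⟨hd, hwk⟩ := tOneP M μ H i a b' hSf hB hW φ h (fun t => e (φ + t • h))
    (fun t => E (φ + t • h)) (fun t => hEg _)
  have hbd : ∀ (t : ℝ) (j : ℕ), |kap μ i h (φ + t • h) (e (φ + t • h) j)| ≤ ‖h‖ := by
    intro t j
    obtain ⟨k, -, hk2, -⟩ := hk h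
    have h1 := hk2 (φ + t • h) (e (φ + t • h) j)
    rw [h1.1, (hEg (φ + t • h)).orth j j, if_pos rfl, mul_one] at h1
    exact h1.2
  letI : MeasurableSpace C(M, ℝ) := borel _
  haveI : BorelSpace C(M, ℝ) := ⟨rfl⟩
  have hcm := Pool.Agent.Y689.QR.cm M μ
  have hline : Continuous fun t : ℝ => φ + t • h := by fun_prop
  have havm : Continuous fun t : ℝ => avg μ h (φ + t • h) := (hcm.2.1 h).comp hline
  have havb : ∀ t : ℝ, |avg μ h (φ + t • h)| ≤ ‖h‖ := fun t => hcm.2.2.1 h _
  have hmeas : ∀ j, J₀ ≤ j → AEMeasurable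
      (fun t : ℝ => kap μ i h (φ + t • h) (e (φ + t • h) j)) volume := by
    intro j hj
    refine (Pool.Agent.Y147.QR.stFTC (fun t => Ev a (b' (φ + t • h)) j) _ ‖h‖
      (fun t => hJ₀ j hj _) (fun s t => ?_) (hd.mono fun t ht => ht j)).2.1
    refine (hexp (φ + s • h) (φ + t • h) j).trans ?_
    refine mul_le_mul_of_nonneg_right (Real.exp_le_exp.mpr ?_) (hnn _ _)
    have h1 : φ + s • h - (φ + t • h) = (s - t) • h := by rw [sub_smul]; abel
    rw [h1, norm_smul, Real.norm_eq_abs, mul_comm]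
  let P : Measure ℝ := gaussianReal 0 1
  have hPv : P ≪ volume := gaussianReal_absolutelyContinuous 0 one_ne_zero
  have hvP : volume ≪ P := gaussianReal_absolutelyContinuous' 0 one_ne_zero
  obtain ⟨s, hs, hsr⟩ := komlos P
    (fun j _ t => kap μ i h (φ + t • h) (e (φ + t • h) (J (j + j₀))) - avg μ h (φ + t • h))
    (fun _ => 2 * ‖h‖) (fun _ => by positivity)
    (fun j _ => ((hmeas _ (hj₀ _ (Nat.le_add_left _ _))).mono_ac hPv).aestronglyMeasurable.sub
      havm.aestronglyMeasurable)
    (fun j _ => Eventually.of_forall fun t => by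
      have h1 := hbd t (J (j + j₀))
      have h2 := havb t
      calc |kap μ i h (φ + t • h) (e (φ + t • h) (J (j + j₀))) - avg μ h (φ + t • h)| ≤
            |kap μ i h (φ + t • h) (e (φ + t • h) (J (j + j₀)))| + |avg μ h (φ + t • h)| :=
            abs_sub _ _
        _ ≤ 2 * ‖h‖ := by linarith)
    (fun _ χ hχ => by
      have hχ' : Integrable (fun t => gaussianPDFReal 0 1 t * χ t) volume := by
        have h1 : Integrable χ (volume.withDensity (gaussianPDF 0 1)) := by
          have : P = volume.withDensity (gaussianPDF 0 1) := gaussianReal_of_var_ne_zero 0 one_ne_zero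
          rw [← this]; exact hχ
        have h2 := (integrable_withDensity_iff_integrable_smul' (measurable_gaussianPDF 0 1)
          (Eventually.of_forall fun x => ENNReal.ofReal_lt_top)).mp h1
        refine h2.congr (Eventually.of_forall fun x => ?_)
        simp only [toReal_gaussianPDF, smul_eq_mul]
      have h1 : Tendsto (fun j : ℕ => J (j + j₀)) atTop atTop :=
        hJ.comp (tendsto_add_atTop_nat j₀)
      have h2 := (hwk _ hχ').comp h1
      have h3 := h2.sub_const (∫ t, gaussianPDFReal 0 1 t * χ t * avg μ h (φ + t • h))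
      rw [sub_self] at h3
      refine h3.congr fun j => ?_
      have i1 : Integrable (fun t => gaussianPDFReal 0 1 t * χ t *
          kap μ i h (φ + t • h) (e (φ + t • h) (J (j + j₀)))) volume := by
        have := hχ'.bdd_mul (c := ‖h‖)
          (hmeas _ (hj₀ (j + j₀) (Nat.le_add_left _ _))).aestronglyMeasurable
          (Eventually.of_forall fun t => by rw [Real.norm_eq_abs]; exact hbd t _)
        refine this.congr (Eventually.of_forall fun t => mul_comm _ _)
      have i2 : Integrable (fun t => gaussianPDFReal 0 1 t * χ t * avg μ h (φ + t • h)) volume := by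
        have := hχ'.bdd_mul (c := ‖h‖) havm.aestronglyMeasurable
          (Eventually.of_forall fun t => by rw [Real.norm_eq_abs]; exact havb t)
        refine this.congr (Eventually.of_forall fun t => mul_comm _ _)
      simp only [Function.comp_apply]
      rw [← integral_sub i1 i2]
      have h4 : ∀ g : ℝ → ℝ, ∫ t, g t ∂P = ∫ t, gaussianPDFReal 0 1 t • g t := fun g =>
        integral_gaussianReal_eq_integral_smul one_ne_zero
      rw [h4]
      refine integral_congr_ae (Eventually.of_forall fun t => ?_)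
      simp only [smul_eq_mul]
      ring)
  refine ⟨fun k => s k + j₀, fun a b hab => by have := hs hab; change s a + j₀ < s b + j₀; omega,
    fun r hr => ?_⟩
  have h1 := hvP.ae_le (hsr r hr)
  filter_upwards [h1] with t ht
  exact ht 0

end Pool.Agent.X151.QC
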