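import Pool.Agent.X151.QC.Mass

/-! Almost sure equidistribution in the mean along subsequences, for random conformal metrics. -/

set_option autoImplicit false

open Set Filter Topology MeasureTheory
open Pool.Agent.Y262.QE Pool.Agent.Y264.QR

noncomputable section

namespace Pool.Agent.X151.QC

variable {M : Type} [MetricSpace M] [CompactSpace M] [MeasurableSpace M] [BorelSpace M]

/-- the area of the metric `exp φ · g` -/
def ar (μ : Measure M) (φ : C(M, ℝ)) : Measure M := wm μ fun x => Real.exp (φ x)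

/-- the mass of `f` for the `j`-th eigenfunction -/
def XX (μ : Measure M) (u : C(M, ℝ) → ℕ → M → ℝ) (f φ : C(M, ℝ)) (j : ℕ) : ℝ :=
  ∫ x, f x * (u φ j x) ^ 2 ∂(ar μ φ)

/-- the mean value of `f` -/
def AA (μ : Measure M) (f φ : C(M, ℝ)) : ℝ := (∫ x, f x ∂(ar μ φ)) / (ar μ φ).real univ

theorem ar_finite {μ : Measure M} {D : Data M} (hD : D.IsSurf μ) (φ : C(M, ℝ)) :
    IsFiniteMeasure (ar μ φ) :=
  (tFin M _ _ (tConf M μ D hD _ (Real.continuous_exp.comp φ.continuous)
    fun x => Real.exp_pos _).1).1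

section

variable {μ : Measure M} {D : Data M} (hD : D.IsSurf μ) {u : C(M, ℝ) → ℕ → M → ℝ}
  {lam : C(M, ℝ) → ℕ → ℝ}
  (hu : ∀ φ, EigBasis (D.conf fun x => Real.exp (φ x)) (wm μ fun x => Real.exp (φ x))
    (u φ) (lam φ))

include hu in
theorem sq_int (φ : C(M, ℝ)) (j : ℕ) : Integrable (fun x => (u φ j x) ^ 2) (ar μ φ) :=
  ((hu φ).eig j).mem.integrable_sq

include hu in
theorem sq_one (φ : C(M, ℝ)) (j : ℕ) : ∫ x, (u φ j x) ^ 2 ∂(ar μ φ) = 1 := by
  have := (hu φ).orth j j
  rw [if_pos rfl] at this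
  rw [← this]
  refine integral_congr_ae (Eventually.of_forall fun x => ?_)
  change (u φ j x) ^ 2 = u φ j x * u φ j x
  ring

include hu in
theorem XX_sub (φ : C(M, ℝ)) (j : ℕ) (f g : C(M, ℝ)) :
    |XX μ u f φ j - XX μ u g φ j| ≤ ‖f - g‖ :=
  mass_sub (fun x => sq_nonneg _) (sq_int hu φ j) (sq_one hu φ j) f g

include hu in
theorem XX_le (φ : C(M, ℝ)) (j : ℕ) (f : C(M, ℝ)) : |XX μ u f φ j| ≤ ‖f‖ := by
  have := XX_sub hu φ j f 0
  simpa [XX] using this

include hu hD in
theorem ar_pos (φ : C(M, ℝ)) : 0 < (ar μ φ).real univ := by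
  haveI := ar_finite hD φ
  rcases (measureReal_nonneg (μ := ar μ φ) (s := univ)).lt_or_eq with h | h
  · exact h
  · exfalso
    have h1 : ar μ φ = 0 := by
      rw [← Measure.measure_univ_eq_zero]
      exact (measureReal_eq_zero_iff).mp h.symm
    have h2 := sq_one hu φ 0
    rw [h1, integral_zero_measure] at h2
    exact zero_ne_one h2

include hu hD in
theorem AA_eq (φ f : C(M, ℝ)) : AA μ f φ = ∫ x, f x * (1 / (ar μ φ).real univ) ∂(ar μ φ) := by
  rw [integral_mul_const, AA]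
  ring

include hu hD in
theorem AA_sub (φ f g : C(M, ℝ)) : |AA μ f φ - AA μ g φ| ≤ ‖f - g‖ := by
  haveI := ar_finite hD φ
  have h0 := ar_pos hD hu φ
  rw [AA_eq hD hu, AA_eq hD hu]
  refine mass_sub (w := fun _ => 1 / (ar μ φ).real univ) (fun x => by positivity)
    (integrable_const _) ?_ f g
  rw [integral_const, smul_eq_mul]
  field_simp

include hu hD in
theorem AA_le (φ f : C(M, ℝ)) : |AA μ f φ| ≤ ‖f‖ := by
  have := AA_sub hD hu φ f 0
  simpa [AA] using this

theorem AA_cont [IsFiniteMeasure μ] [MeasurableSpace C(M, ℝ)] [BorelSpace C(M, ℝ)] (f : C(M, ℝ)) :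
    Continuous fun φ => AA μ f φ := by
  have h := (Pool.Agent.Y689.QR.cm M μ).2.1 f
  refine h.congr fun φ => ?_
  exact avg_eq μ f φ

end

end Pool.Agent.X151.QC
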