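import Pool.Agent.Y264.QR.All
import Pool.Agent.X151.QC.Komlos

/-! Almost sure equidistribution in the mean along subsequences, for random conformal metrics. -/

set_option autoImplicit false

open Set Filter Topology MeasureTheory
open Pool.Agent.Y262.QE Pool.Agent.Y264.QR

noncomputable section

namespace Pool.Agent.X151.QC

variable {M : Type} [MetricSpace M] [CompactSpace M] [MeasurableSpace M] [BorelSpace M]

theorem integrable_mul {ν : Measure M} {w : M → ℝ} (hw : Integrable w ν) (f : C(M, ℝ)) :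
    Integrable (fun x => f x * w x) ν := by
  have := hw.bdd_mul (c := ‖f‖) f.continuous.aestronglyMeasurable
    (Eventually.of_forall fun x => f.norm_coe_le_norm x)
  exact this

theorem mass_sub {ν : Measure M} {w : M → ℝ} (hw0 : ∀ x, 0 ≤ w x) (hw : Integrable w ν)
    (h1 : ∫ x, w x ∂ν = 1) (f g : C(M, ℝ)) :
    |∫ x, f x * w x ∂ν - ∫ x, g x * w x ∂ν| ≤ ‖f - g‖ := by
  rw [← integral_sub (integrable_mul hw f) (integrable_mul hw g)]
  calc |∫ x, (f x * w x - g x * w x) ∂ν| ≤ ∫ x, |f x * w x - g x * w x| ∂ν :=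
        abs_integral_le_integral_abs
    _ ≤ ∫ x, ‖f - g‖ * w x ∂ν := by
        refine integral_mono ((integrable_mul hw f).sub (integrable_mul hw g)).abs
          (hw.const_mul _) fun x => ?_
        change |f x * w x - g x * w x| ≤ ‖f - g‖ * w x
        rw [← sub_mul, abs_mul, abs_of_nonneg (hw0 x)]
        have := (f - g).norm_coe_le_norm x
        rw [Real.norm_eq_abs] at this
        exact mul_le_mul_of_nonneg_right this (hw0 x)
    _ = ‖f - g‖ := by rw [integral_const_mul, h1, mul_one]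

omit [MeasurableSpace M] [BorelSpace M] in
theorem cesaro_all {x : ℕ → C(M, ℝ) → ℝ} {a : C(M, ℝ) → ℝ}
    (hx : ∀ k f g, |x k f - x k g| ≤ ‖f - g‖) (ha : ∀ f g, |a f - a g| ≤ ‖f - g‖)
    (D : Set C(M, ℝ)) (hD : Dense D)
    (h : ∀ f ∈ D, Tendsto (fun N : ℕ => (∑ k ∈ Finset.range N, (x k f - a f)) / N) atTop (𝓝 0))
    (f : C(M, ℝ)) :
    Tendsto (fun N : ℕ => (∑ k ∈ Finset.range N, x k f) / N) atTop (𝓝 (a f)) := by
  rw [Metric.tendsto_atTop]
  intro ε hε
  obtain ⟨g, hg, hfg⟩ := Metric.dense_iff.mp hD f (ε / 4) (by positivity)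
  rw [Metric.mem_ball, dist_comm, dist_eq_norm] at hg
  obtain ⟨N₀, hN₀⟩ := Metric.tendsto_atTop.mp (h g hfg) (ε / 4) (by positivity)
  refine ⟨max N₀ 1, fun N hN => ?_⟩
  have hN1 : (0 : ℝ) < N := by
    have : 1 ≤ N := (le_max_right _ _).trans hN
    exact_mod_cast this
  have h1 := hN₀ N ((le_max_left _ _).trans hN)
  rw [Real.dist_eq, sub_zero] at h1
  rw [Real.dist_eq]
  have h2 : (∑ k ∈ Finset.range N, x k f) / N - a f =
      (∑ k ∈ Finset.range N, (x k f - x k g)) / N +
        (∑ k ∈ Finset.range N, (x k g - a g)) / N + (a g - a f) := by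
    rw [Finset.sum_sub_distrib, Finset.sum_sub_distrib, Finset.sum_const, Finset.card_range,
      nsmul_eq_mul]
    field_simp
    ring
  have h3 : |(∑ k ∈ Finset.range N, (x k f - x k g)) / N| ≤ ‖f - g‖ := by
    rw [abs_div, abs_of_pos hN1, div_le_iff₀ hN1]
    refine (Finset.abs_sum_le_sum_abs _ _).trans ?_
    calc ∑ k ∈ Finset.range N, |x k f - x k g| ≤ ∑ _k ∈ Finset.range N, ‖f - g‖ :=
          Finset.sum_le_sum fun k _ => hx k f g
      _ = ‖f - g‖ * N := by rw [Finset.sum_const, Finset.card_range, nsmul_eq_mul, mul_comm]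
  have h4 := ha g f
  rw [norm_sub_rev] at h4
  rw [h2]
  calc |(∑ k ∈ Finset.range N, (x k f - x k g)) / N +
        (∑ k ∈ Finset.range N, (x k g - a g)) / N + (a g - a f)| ≤
        |(∑ k ∈ Finset.range N, (x k f - x k g)) / N| +
        |(∑ k ∈ Finset.range N, (x k g - a g)) / N| + |a g - a f| := abs_add_three _ _ _
    _ < ε := by linarith

/-- if the averages of a sequence converge to `a` then the sequence is infinitely often below
`a + ε` -/
theorem frequently_lt {x : ℕ → ℝ} {a ε : ℝ} (hε : 0 < ε)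
    (h : Tendsto (fun N : ℕ => (∑ k ∈ Finset.range N, x k) / N) atTop (𝓝 a)) :
    ∃ᶠ k in atTop, x k < a + ε := by
  by_contra hn
  rw [not_frequently] at hn
  obtain ⟨k₀, hk₀⟩ := eventually_atTop.mp hn
  have h1 : Tendsto (fun N : ℕ => (∑ k ∈ Finset.range N, x k) / N -
      ((∑ k ∈ Finset.range k₀, x k) - k₀ * (a + ε)) * ((N : ℝ))⁻¹) atTop (𝓝 a) := by
    have h2 : Tendsto (fun N : ℕ => ((∑ k ∈ Finset.range k₀, x k) - k₀ * (a + ε)) *
        ((N : ℝ))⁻¹) atTop (𝓝 (((∑ k ∈ Finset.range k₀, x k) - k₀ * (a + ε)) * 0)) :=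
      tendsto_inv_atTop_nhds_zero_nat.const_mul _
    simpa using h.sub h2
  have h3 : a + ε ≤ a := by
    refine ge_of_tendsto h1 ?_
    filter_upwards [eventually_ge_atTop (max k₀ 1)] with N hN
    have hN1 : (0 : ℝ) < N := by
      have : 1 ≤ N := (le_max_right _ _).trans hN
      exact_mod_cast this
    have h4 : ∑ k ∈ Finset.range N, x k = ∑ k ∈ Finset.range k₀, x k +
        ∑ k ∈ Finset.Ico k₀ N, x k := by
      rw [Finset.sum_range_add_sum_Ico _ ((le_max_left _ _).trans hN)]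
    have h5 : ((N : ℝ) - k₀) * (a + ε) ≤ ∑ k ∈ Finset.Ico k₀ N, x k := by
      calc ((N : ℝ) - k₀) * (a + ε) = ∑ _k ∈ Finset.Ico k₀ N, (a + ε) := by
            rw [Finset.sum_const, Nat.card_Ico, nsmul_eq_mul,
              Nat.cast_sub ((le_max_left _ _).trans hN)]
        _ ≤ ∑ k ∈ Finset.Ico k₀ N, x k := Finset.sum_le_sum fun k hk =>
            not_lt.mp (hk₀ k (Finset.mem_Ico.mp hk).1)
    rw [← div_eq_mul_inv, ← sub_div, le_div_iff₀ hN1, h4]
    linarith
  linarith

end Pool.Agent.X151.QC
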