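import Pool.Agent.X151.QC.Main

/-! The spectrum of almost every conformal metric is simple. -/

set_option autoImplicit false
set_option linter.unusedSectionVars false
set_option linter.deprecated false

open Set Filter Topology MeasureTheory
open Pool.Agent.Y262.QE Pool.Agent.Y264.QR

noncomputable section

namespace Pool.Agent.X151.QC

theorem der_unique {f : ℝ → ℝ} {d E κ : ℝ} (hf : HasDerivAt f d 0) (h0 : f 0 = E)
    (h : ∀ ε : ℝ, 0 < ε → ∃ δ : ℝ, 0 < δ ∧ ∀ τ : ℝ, |τ| < δ →
      f τ ≤ E * (1 - κ * τ) + ε * |τ|) : d = -(E * κ) := by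
  by_contra hne
  set c : ℝ := d + E * κ with hc
  have hc0 : c ≠ 0 := fun h1 => hne (by linarith)
  have hca : 0 < |c| := abs_pos.mpr hc0
  obtain ⟨δ, hδ, hb⟩ := h (|c| / 2) (by positivity)
  have h1 := hasDerivAt_iff_isLittleO_nhds_zero.mp hf
  have h2 := h1.bound (show 0 < |c| / 4 by positivity)
  obtain ⟨ρ, hρ, h3⟩ := Metric.eventually_nhds_iff.mp h2
  set t : ℝ := min δ ρ / 2 with ht
  have ht0 : 0 < t := by positivity
  have htδ : t < δ := by
    have := min_le_left δ ρ
    rw [ht]; linarith [lt_min hδ hρ]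
  have htρ : t < ρ := by
    have := min_le_right δ ρ
    rw [ht]; linarith [lt_min hδ hρ]
  rcases lt_or_gt_of_ne hc0 with hneg | hpos
  · have h4 := hb (-t) (by rw [abs_neg, abs_of_pos ht0]; exact htδ)
    have h5 := h3 (y := -t) (by rw [Real.dist_eq, sub_zero, abs_neg, abs_of_pos ht0]; exact htρ)
    rw [zero_add, h0, Real.norm_eq_abs, Real.norm_eq_abs, abs_neg, abs_of_pos ht0, smul_eq_mul] at h5
    rw [abs_neg, abs_of_pos ht0] at h4
    rw [abs_of_neg hneg] at h4 h5
    have h6 := (abs_le.mp h5).1
    have h7 : c = d + E * κ := hc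
    nlinarith [mul_pos ht0 (neg_pos.mpr hneg)]
  · have h4 := hb t (by rw [abs_of_pos ht0]; exact htδ)
    have h5 := h3 (y := t) (by rw [Real.dist_eq, sub_zero, abs_of_pos ht0]; exact htρ)
    rw [zero_add, h0, Real.norm_eq_abs, Real.norm_eq_abs, abs_of_pos ht0, smul_eq_mul] at h5
    rw [abs_of_pos ht0] at h4
    rw [abs_of_pos hpos] at h4 h5
    have h6 := (abs_le.mp h5).1
    have h7 : c = d + E * κ := hc
    nlinarith [mul_pos ht0 hpos]

section forms

variable {H : Type} [NormedAddCommGroup H] [InnerProductSpace ℝ H]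

/-- the rotation of two vectors of a system by the angle `π / 4` -/
def rt (e : ℕ → H) (p q : ℕ) (j : ℕ) : H :=
  if j = p then (Real.sqrt 2)⁻¹ • (e p + e q) else
    if j = q then (Real.sqrt 2)⁻¹ • (e p - e q) else e j

theorem rt_p (e : ℕ → H) (p q : ℕ) : rt e p q p = (Real.sqrt 2)⁻¹ • (e p + e q) := if_pos rfl

theorem rt_q (e : ℕ → H) {p q : ℕ} (hpq : p ≠ q) :
    rt e p q q = (Real.sqrt 2)⁻¹ • (e p - e q) := by
  unfold rt
  rw [if_neg (Ne.symm hpq), if_pos rfl]

theorem rt_o (e : ℕ → H) {p q j : ℕ} (h1 : j ≠ p) (h2 : j ≠ q) : rt e p q j = e j := by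
  unfold rt
  rw [if_neg h1, if_neg h2]

theorem sq2 : (Real.sqrt 2)⁻¹ * (Real.sqrt 2)⁻¹ = 1 / 2 := by
  rw [← mul_inv, Real.mul_self_sqrt (by norm_num)]; norm_num

theorem rt_eg {a b : H →L[ℝ] H →L[ℝ] ℝ} {e : ℕ → H} {E : ℕ → ℝ} (h : Eg a b e E) {p q : ℕ}
    (hpq : p ≠ q) (hE : E p = E q) : Eg a b (rt e p q) E where
  orth := by
    intro i j
    have hpp := h.orth p p
    have hqq := h.orth q q
    have hpq1 := h.orth p q
    have hqp1 := h.orth q p
    rw [if_pos rfl] at hpp hqq
    rw [if_neg hpq] at hpq1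
    rw [if_neg (Ne.symm hpq)] at hqp1
    have s2 := sq2
    by_cases hip : i = p
    · subst hip
      by_cases hji : j = i
      · subst hji
        rw [rt_p, if_pos rfl]
        simp only [map_smul, map_add, ContinuousLinearMap.add_apply,
          ContinuousLinearMap.smul_apply, smul_eq_mul, hpp, hqq, hpq1, hqp1]
        linear_combination 2 * s2
      · by_cases hjq : j = q
        · subst hjq
          rw [rt_p, rt_q e hpq, if_neg hpq]
          simp only [map_smul, map_add, map_sub, ContinuousLinearMap.add_apply,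
            ContinuousLinearMap.smul_apply, smul_eq_mul, hpp, hqq, hpq1, hqp1]
          ring
        · rw [rt_p, rt_o e hji hjq, if_neg (Ne.symm hji)]
          have h1 := h.orth i j
          have h2 := h.orth q j
          rw [if_neg (Ne.symm hji)] at h1
          rw [if_neg (Ne.symm hjq)] at h2
          simp only [map_smul, map_add, ContinuousLinearMap.add_apply,
            ContinuousLinearMap.smul_apply, smul_eq_mul, h1, h2]
          ring
    · by_cases hiq : i = q
      · subst hiq
        by_cases hji : j = i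
        · subst hji
          rw [rt_q e hpq, if_pos rfl]
          simp only [map_smul, map_sub, ContinuousLinearMap.sub_apply,
            ContinuousLinearMap.smul_apply, smul_eq_mul, hpp, hqq, hpq1, hqp1]
          linear_combination 2 * s2
        · by_cases hjp : j = p
          · subst hjp
            rw [rt_p, rt_q e hpq, if_neg (Ne.symm hpq)]
            simp only [map_smul, map_add, map_sub, ContinuousLinearMap.sub_apply,
              ContinuousLinearMap.smul_apply, smul_eq_mul, hpp, hqq, hpq1, hqp1]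
            ring
          · rw [rt_q e hpq, rt_o e hjp hji, if_neg (Ne.symm hji)]
            have h1 := h.orth i j
            have h2 := h.orth p j
            rw [if_neg (Ne.symm hji)] at h1
            rw [if_neg (Ne.symm hjp)] at h2
            simp only [map_smul, map_sub, ContinuousLinearMap.sub_apply,
              ContinuousLinearMap.smul_apply, smul_eq_mul, h1, h2]
            ring
      · rw [rt_o e hip hiq]
        by_cases hjp : j = p
        · subst hjp
          rw [rt_p, if_neg hip]
          have h1 := h.orth i j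
          have h2 := h.orth i q
          rw [if_neg hip] at h1
          rw [if_neg hiq] at h2
          simp only [map_smul, map_add, smul_eq_mul, h1, h2]
          ring
        · by_cases hjq : j = q
          · subst hjq
            rw [rt_q e hpq, if_neg hiq]
            have h1 := h.orth i j
            have h2 := h.orth i p
            rw [if_neg hiq] at h1
            rw [if_neg hip] at h2
            simp only [map_smul, map_sub, smul_eq_mul, h1, h2]
            ring
          · rw [rt_o e hjp hjq]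
            exact h.orth i j
  eig := by
    intro j v
    by_cases hjp : j = p
    · subst hjp
      rw [rt_p]
      simp only [map_smul, map_add, ContinuousLinearMap.add_apply,
          ContinuousLinearMap.smul_apply, smul_eq_mul, h.eig j v, h.eig q v, hE]
      ring
    · by_cases hjq : j = q
      · subst hjq
        rw [rt_q e hpq]
        simp only [map_smul, map_sub, ContinuousLinearMap.sub_apply,
          ContinuousLinearMap.smul_apply, smul_eq_mul, h.eig j v, h.eig p v, hE]
        ring
      · rw [rt_o e hjp hjq]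
        exact h.eig j v
  mono := h.mono
  tt := h.tt
  sum := by
    intro v
    set d : ℝ := (b v (rt e p q p)) ^ 2 - (b v (e p)) ^ 2 with hd
    have s2 := sq2
    have hd2 : (b v (rt e p q q)) ^ 2 - (b v (e q)) ^ 2 = -d := by
      rw [hd, rt_p, rt_q e hpq]
      simp only [map_smul, map_add, map_sub, smul_eq_mul]
      linear_combination (2 * (b v (e p)) ^ 2 + 2 * (b v (e q)) ^ 2) * s2
    have h1 := ((h.sum v).add (hasSum_ite_eq p d)).add (hasSum_ite_eq q (-d))
    have h2 : b v v + d + -d = b v v := by ring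
    rw [h2] at h1
    have h3 : (fun j => (b v (rt e p q j)) ^ 2) = fun j => ((b v (e j)) ^ 2 +
        if j = p then d else 0) + if j = q then -d else 0 := by
      funext j
      by_cases hjp : j = p
      · subst hjp
        rw [if_pos rfl, if_neg hpq, hd]; ring
      · by_cases hjq : j = q
        · subst hjq
          rw [if_neg hjp, if_pos rfl, ← hd2]; ring
        · rw [if_neg hjp, if_neg hjq, rt_o e hjp hjq]; ring
    rw [h3]
    exact h1

end forms

theorem kap_eq_of {M : Type} [MetricSpace M] [CompactSpace M] [MeasurableSpace M] [BorelSpace M]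
    (μ : Measure M) [IsFiniteMeasure μ] {H : Type} [NormedAddCommGroup H] [InnerProductSpace ℝ H]
    (i : H →L[ℝ] Lp ℝ 2 μ) (φ : C(M, ℝ)) (v w : H)
    (h : ∀ f : C(M, ℝ), kap μ i f φ v = kap μ i f φ w) :
    ∀ᵐ x ∂μ, (i v x) ^ 2 = (i w x) ^ 2 := by
  have hmeas : ∀ v : H, Measurable fun x => Real.exp (φ x) * (i v x) ^ 2 := fun v =>
    (Real.continuous_exp.comp φ.continuous).measurable.mul
      ((Lp.stronglyMeasurable (i v)).measurable.pow_const 2)
  have h0 : ∀ (v : H) (x : M), 0 ≤ Real.exp (φ x) * (i v x) ^ 2 := fun v x => by positivity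
  have hint : ∀ v : H, Integrable (fun x => Real.exp (φ x) * (i v x) ^ 2) μ := fun v => by
    have h1 := (Lp.memLp (i v)).integrable_sq
    exact integrable_mul h1 (⟨fun x => Real.exp (φ x),
      Real.continuous_exp.comp φ.continuous⟩ : C(M, ℝ))
  have hfin : ∀ v : H, ∫⁻ x, ENNReal.ofReal (Real.exp (φ x) * (i v x) ^ 2) ∂μ ≠ ⊤ := fun v => by
    rw [← ofReal_integral_eq_lintegral_ofReal (hint v) (Eventually.of_forall (h0 v))]
    exact ENNReal.ofReal_ne_top
  have hF : ∀ v : H, IsFiniteMeasure (wm μ fun x => Real.exp (φ x) * (i v x) ^ 2) := fun v =>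
    isFiniteMeasure_withDensity (hfin v)
  have h1 := hF v
  have h2 := hF w
  have h3 : (wm μ fun x => Real.exp (φ x) * (i v x) ^ 2) =
      wm μ fun x => Real.exp (φ x) * (i w x) ^ 2 := by
    refine ext_of_forall_integral_eq_of_IsFiniteMeasure fun f => ?_
    rw [integral_wm μ _ (hmeas v) (h0 v), integral_wm μ _ (hmeas w) (h0 w)]
    have h4 := h f.toContinuousMap
    unfold kap at h4
    calc ∫ x, Real.exp (φ x) * (i v x) ^ 2 * f x ∂μ
        = ∫ x, f x * (Real.exp (φ x) * (i v x) ^ 2) ∂μ :=
          integral_congr_ae (Eventually.of_forall fun x => mul_comm _ _)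
      _ = ∫ x, f x * (Real.exp (φ x) * (i w x) ^ 2) ∂μ := h4
      _ = ∫ x, Real.exp (φ x) * (i w x) ^ 2 * f x ∂μ :=
          integral_congr_ae (Eventually.of_forall fun x => mul_comm _ _)
  have h5 := (withDensity_eq_iff (hmeas v).ennreal_ofReal.aemeasurable
    (hmeas w).ennreal_ofReal.aemeasurable (hfin v)).mp h3
  filter_upwards [h5] with x hx
  have h6 : Real.exp (φ x) * (i v x) ^ 2 = Real.exp (φ x) * (i w x) ^ 2 := by
    have := congrArg ENNReal.toReal hx
    rwa [ENNReal.toReal_ofReal (h0 v x), ENNReal.toReal_ofReal (h0 w x)] at this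
  exact mul_left_cancel₀ (Real.exp_pos _).ne' h6

/-- two vectors of a basis with the same mass on every function, such that the rotated vectors have
the same mass as well -/
theorem no_pair {M : Type} [MetricSpace M] [CompactSpace M] [MeasurableSpace M] [BorelSpace M]
    (μ : Measure M) [IsFiniteMeasure μ] {H : Type} [NormedAddCommGroup H] [InnerProductSpace ℝ H]
    (i : H →L[ℝ] Lp ℝ 2 μ) (φ : C(M, ℝ)) (e : ℕ → H) {p q : ℕ} (hpq : p ≠ q)
    (h1 : ∀ f : C(M, ℝ), kap μ i f φ (e p) = kap μ i f φ (e q))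
    (h2 : ∀ f : C(M, ℝ), kap μ i f φ (rt e p q p) = kap μ i f φ (rt e p q q)) :
    ∀ᵐ x ∂μ, i (e p) x = 0 := by
  have h3 := kap_eq_of μ i φ _ _ h1
  have h4 := kap_eq_of μ i φ _ _ h2
  have h5 : ∀ᵐ x ∂μ, i (rt e p q p) x = (Real.sqrt 2)⁻¹ * (i (e p) x + i (e q) x) := by
    rw [rt_p, map_smul, map_add]
    filter_upwards [Lp.coeFn_smul (Real.sqrt 2)⁻¹ (i (e p) + i (e q)),
      Lp.coeFn_add (i (e p)) (i (e q))] with x hx hx'
    rw [hx, Pi.smul_apply, hx', Pi.add_apply, smul_eq_mul]
  have h6 : ∀ᵐ x ∂μ, i (rt e p q q) x = (Real.sqrt 2)⁻¹ * (i (e p) x - i (e q) x) := by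
    rw [rt_q e hpq, map_smul, map_sub]
    filter_upwards [Lp.coeFn_smul (Real.sqrt 2)⁻¹ (i (e p) - i (e q)),
      Lp.coeFn_sub (i (e p)) (i (e q))] with x hx hx'
    rw [hx, Pi.smul_apply, hx', Pi.sub_apply, smul_eq_mul]
  filter_upwards [h3, h4, h5, h6] with x a1 a2 a3 a4
  rw [a3, a4, mul_pow, mul_pow] at a2
  have s2 : ((Real.sqrt 2)⁻¹ : ℝ) ^ 2 ≠ 0 := by
    have := sq2
    rw [pow_two, this]; norm_num
  have a5 := mul_left_cancel₀ s2 a2
  have a6 : i (e p) x * i (e q) x = 0 := by linarith [a5, sq (i (e p) x + i (e q) x)]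
  have a7 : (i (e p) x) ^ 4 = 0 := by
    calc (i (e p) x) ^ 4 = (i (e p) x) ^ 2 * (i (e p) x) ^ 2 := by ring
      _ = (i (e p) x) ^ 2 * (i (e q) x) ^ 2 := by rw [← a1]
      _ = (i (e p) x * i (e q) x) ^ 2 := by ring
      _ = 0 := by rw [a6]; ring
  exact pow_eq_zero_iff (by norm_num) |>.mp a7

end Pool.Agent.X151.QC
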