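import Mathlib

/-! A strong law of large numbers for bounded functions which are almost orthogonal. -/

set_option autoImplicit false

open Set Filter Topology MeasureTheory

namespace Pool.Agent.X151.QC

theorem tendsto_of_squares {a : ℕ → ℝ} {K : ℝ} (hK : 0 ≤ K)
    (hstep : ∀ m n : ℕ, m ≤ n → |a n| ≤ |a m| + K * ((n : ℝ) - m))
    (hsq : Tendsto (fun n : ℕ => a (n ^ 2) / ((n : ℝ) ^ 2)) atTop (𝓝 0)) :
    Tendsto (fun N : ℕ => a N / N) atTop (𝓝 0) := by
  have hs : Tendsto Nat.sqrt atTop atTop := by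
    refine tendsto_atTop.mpr fun b => ?_
    filter_upwards [eventually_ge_atTop (b * b)] with N hN
    exact Nat.le_sqrt.mpr hN
  have h1 : Tendsto (fun n : ℕ => |a (n ^ 2) / ((n : ℝ) ^ 2)| + 2 * K * ((n : ℝ))⁻¹) atTop (𝓝 0) := by
    have h2 := hsq.abs
    have h3 : Tendsto (fun n : ℕ => 2 * K * ((n : ℝ))⁻¹) atTop (𝓝 (2 * K * 0)) :=
      tendsto_inv_atTop_nhds_zero_nat.const_mul _
    simpa using h2.add h3
  refine squeeze_zero_norm' ?_ (h1.comp hs)
  filter_upwards [eventually_ge_atTop 1] with N hN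
  have hn1 : 1 ≤ Nat.sqrt N := Nat.le_sqrt.mpr (by simpa using hN)
  set n := Nat.sqrt N with hn
  have hle : n ^ 2 ≤ N := by
    rw [pow_two]; exact Nat.sqrt_le N
  have hlt : N ≤ n ^ 2 + 2 * n := by
    have h := Nat.sqrt_le_add N
    rw [← hn] at h
    rw [pow_two]; omega
  have hn0 : (0 : ℝ) < n := by exact_mod_cast hn1
  have hN0 : (0 : ℝ) < N := by exact_mod_cast (lt_of_lt_of_le Nat.zero_lt_one hN)
  have hleR : (n : ℝ) ^ 2 ≤ N := by exact_mod_cast hle
  have hltR : (N : ℝ) ≤ (n : ℝ) ^ 2 + 2 * n := by exact_mod_cast hlt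
  have h4 := hstep (n ^ 2) N hle
  have h5 : |a N| ≤ |a (n ^ 2)| + K * (2 * n) := by
    refine h4.trans ?_
    have : (N : ℝ) - ((n ^ 2 : ℕ) : ℝ) ≤ 2 * n := by push_cast; linarith
    gcongr
  change ‖a N / N‖ ≤ |a (n ^ 2) / ((n : ℝ) ^ 2)| + 2 * K * ((n : ℝ))⁻¹
  rw [Real.norm_eq_abs, abs_div, abs_div, abs_of_pos hN0, abs_of_pos (by positivity : (0 : ℝ) < (n : ℝ) ^ 2)]
  calc |a N| / N ≤ (|a (n ^ 2)| + K * (2 * n)) / ((n : ℝ) ^ 2) := by
        gcongr
    _ = |a (n ^ 2)| / (n : ℝ) ^ 2 + 2 * K * ((n : ℝ))⁻¹ := by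
        field_simp

theorem slln {Ω : Type} [MeasurableSpace Ω] (P : Measure Ω) [IsProbabilityMeasure P]
    (Z : ℕ → Ω → ℝ) (K : ℝ) (hK : 0 ≤ K) (hm : ∀ k, AEStronglyMeasurable (Z k) P)
    (hb : ∀ k, ∀ᵐ o ∂P, |Z k o| ≤ K) (k₀ : ℕ)
    (hc : ∀ l k, k₀ ≤ k → l < k → |∫ o, Z k o * Z l o ∂P| ≤ (1 / 2 : ℝ) ^ k) :
    ∀ᵐ o ∂P, Tendsto (fun N : ℕ => (∑ k ∈ Finset.range N, Z k o) / N) atTop (𝓝 0) := by
  classical
  set S : ℕ → Ω → ℝ := fun N o => ∑ k ∈ Finset.range N, Z k o with hS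
  have hSm : ∀ N, AEStronglyMeasurable (S N) P := fun N => by
    have := Finset.aestronglyMeasurable_sum (Finset.range N) (f := Z) fun k _ => hm k
    refine this.congr (Eventually.of_forall fun o => ?_)
    simp [hS, Finset.sum_apply]
  have hball : ∀ᵐ o ∂P, ∀ k, |Z k o| ≤ K := ae_all_iff.mpr hb
  have hSb : ∀ᵐ o ∂P, ∀ N : ℕ, |S N o| ≤ N * K := by
    filter_upwards [hball] with o ho N
    calc |S N o| ≤ ∑ k ∈ Finset.range N, |Z k o| := Finset.abs_sum_le_sum_abs _ _
      _ ≤ ∑ _k ∈ Finset.range N, K := Finset.sum_le_sum fun k _ => ho k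
      _ = N * K := by simp
  have hZZ : ∀ k l, Integrable (fun o => Z k o * Z l o) P := fun k l => by
    refine Integrable.of_bound ((hm k).mul (hm l)) (K * K) ?_
    filter_upwards [hball] with o ho
    rw [Real.norm_eq_abs, abs_mul]
    exact mul_le_mul (ho k) (ho l) (abs_nonneg _) hK
  have hSS : ∀ N, Integrable (fun o => S N o ^ 2) P := fun N => by
    refine Integrable.of_bound ((hSm N).pow 2) ((N * K) ^ 2) ?_
    filter_upwards [hSb] with o ho
    rw [Real.norm_eq_abs, abs_pow]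
    exact pow_le_pow_left₀ (abs_nonneg _) (ho N) 2
  have hSZ : ∀ N k, Integrable (fun o => Z k o * S N o) P := fun N k => by
    refine Integrable.of_bound ((hm k).mul (hSm N)) (K * (N * K)) ?_
    filter_upwards [hball, hSb] with o ho ho'
    rw [Real.norm_eq_abs, abs_mul]
    exact mul_le_mul (ho k) (ho' N) (abs_nonneg _) hK
  -- second moments
  set A : ℝ := (k₀ * K) ^ 2 with hA
  set B : ℝ := 2 + K ^ 2 with hB
  have hsmall : ∀ N : ℕ, N ≤ k₀ → ∫ o, S N o ^ 2 ∂P ≤ A + B * N := by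
    intro N hN
    have h1 : ∫ o, S N o ^ 2 ∂P ≤ ∫ _o, A ∂P := by
      refine integral_mono_ae (hSS N) (integrable_const _) ?_
      filter_upwards [hSb] with o ho
      have h2 : |S N o| ≤ k₀ * K := (ho N).trans (by gcongr)
      calc S N o ^ 2 = |S N o| ^ 2 := (sq_abs _).symm
        _ ≤ (k₀ * K) ^ 2 := pow_le_pow_left₀ (abs_nonneg _) h2 2
    simp only [integral_const, probReal_univ, smul_eq_mul, one_mul] at h1
    have : 0 ≤ B * N := by positivity
    linarith
  have hmom : ∀ N : ℕ, ∫ o, S N o ^ 2 ∂P ≤ A + B * N := by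
    intro N
    rcases le_total N k₀ with h | h
    · exact hsmall N h
    · induction N, h using Nat.le_induction with
      | base => exact hsmall k₀ le_rfl
      | succ N hN ih =>
        have h1 : ∀ o, S (N + 1) o ^ 2 = S N o ^ 2 + 2 * (Z N o * S N o) + Z N o * Z N o := fun o => by
          simp only [hS, Finset.sum_range_succ]; ring
        have h2 : ∫ o, S (N + 1) o ^ 2 ∂P =
            ∫ o, S N o ^ 2 ∂P + 2 * ∫ o, Z N o * S N o ∂P + ∫ o, Z N o * Z N o ∂P := by
          simp_rw [h1]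
          have e1 : ∫ o, (S N o ^ 2 + 2 * (Z N o * S N o)) + Z N o * Z N o ∂P =
              ∫ o, (S N o ^ 2 + 2 * (Z N o * S N o)) ∂P + ∫ o, Z N o * Z N o ∂P :=
            integral_add ((hSS N).add ((hSZ N N).const_mul 2)) (hZZ N N)
          have e2 : ∫ o, (S N o ^ 2 + 2 * (Z N o * S N o)) ∂P =
              ∫ o, S N o ^ 2 ∂P + ∫ o, 2 * (Z N o * S N o) ∂P :=
            integral_add (hSS N) ((hSZ N N).const_mul 2)
          rw [e1, e2, integral_const_mul]
        have h3 : ∫ o, Z N o * S N o ∂P = ∑ l ∈ Finset.range N, ∫ o, Z N o * Z l o ∂P := by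
          rw [← integral_finsetSum _ fun l _ => hZZ N l]
          congr 1
          funext o
          simp only [hS, Finset.mul_sum]
        have h4 : |∑ l ∈ Finset.range N, ∫ o, Z N o * Z l o ∂P| ≤ N * (1 / 2 : ℝ) ^ N := by
          refine (Finset.abs_sum_le_sum_abs _ _).trans ?_
          calc ∑ l ∈ Finset.range N, |∫ o, Z N o * Z l o ∂P|
              ≤ ∑ _l ∈ Finset.range N, (1 / 2 : ℝ) ^ N :=
                Finset.sum_le_sum fun l hl => hc l N hN (Finset.mem_range.mp hl)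
            _ = N * (1 / 2 : ℝ) ^ N := by simp
        have h5 : (N : ℝ) * (1 / 2 : ℝ) ^ N ≤ 1 := by
          have h6 : (N : ℝ) ≤ 2 ^ N := by exact_mod_cast Nat.lt_two_pow_self.le
          calc (N : ℝ) * (1 / 2 : ℝ) ^ N ≤ 2 ^ N * (1 / 2 : ℝ) ^ N := by gcongr
            _ = 1 := by rw [← mul_pow]; norm_num
        have h7 : ∫ o, Z N o * Z N o ∂P ≤ K ^ 2 := by
          have h8 : ∫ o, Z N o * Z N o ∂P ≤ ∫ _o, K ^ 2 ∂P := by
            refine integral_mono_ae (hZZ N N) (integrable_const _) ?_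
            filter_upwards [hb N] with o ho
            calc Z N o * Z N o = |Z N o| ^ 2 := by rw [sq_abs]; ring
              _ ≤ K ^ 2 := pow_le_pow_left₀ (abs_nonneg _) ho 2
          simpa only [integral_const, probReal_univ, smul_eq_mul, one_mul] using h8
        have h9 := (abs_le.mp (h4.trans h5)).2
        rw [h2, h3]
        push_cast
        nlinarith [ih, h9, h7]
  have hA0 : 0 ≤ A := by positivity
  have hB0 : 0 ≤ B := by positivity
  -- squares
  set g : ℕ → Ω → ENNReal := fun n o => ENNReal.ofReal ((S (n ^ 2) o / (n : ℝ) ^ 2) ^ 2) with hg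
  have hgm : ∀ n, AEMeasurable (g n) P := fun n =>
    (((hSm (n ^ 2)).aemeasurable.div_const _).pow_const 2).ennreal_ofReal
  have hgi : ∀ n : ℕ, ∫⁻ o, g n o ∂P ≤ ENNReal.ofReal ((A + B) * (1 / (n : ℝ) ^ 2)) := by
    intro n
    have hint : Integrable (fun o => (S (n ^ 2) o / (n : ℝ) ^ 2) ^ 2) P := by
      have := (hSS (n ^ 2)).div_const (((n : ℝ) ^ 2) ^ 2)
      refine this.congr (Eventually.of_forall fun o => ?_)
      simp only [div_pow]
    rw [hg, ← ofReal_integral_eq_lintegral_ofReal hint (Eventually.of_forall fun o => sq_nonneg _)]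
    refine ENNReal.ofReal_le_ofReal ?_
    simp_rw [div_pow]
    rw [integral_div]
    rcases Nat.eq_zero_or_pos n with rfl | hn
    · simp
    · have hn0 : (1 : ℝ) ≤ n := by exact_mod_cast hn
      have h1 := hmom (n ^ 2)
      have h2 : (1 : ℝ) ≤ (n : ℝ) ^ 2 := one_le_pow₀ hn0
      rw [div_le_iff₀ (by positivity)]
      have h3 : (A + B) * (1 / (n : ℝ) ^ 2) * ((n : ℝ) ^ 2) ^ 2 = (A + B) * (n : ℝ) ^ 2 := by
        field_simp
      rw [h3]
      push_cast at h1
      nlinarith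
  have hsum : ∫⁻ o, ∑' n, g n o ∂P ≠ ⊤ := by
    rw [lintegral_tsum hgm]
    refine ne_top_of_le_ne_top ?_ (ENNReal.tsum_le_tsum hgi)
    have h1 : Summable fun n : ℕ => (A + B) * (1 / (n : ℝ) ^ 2) :=
      (Real.summable_one_div_nat_pow.mpr one_lt_two).mul_left _
    rw [← ENNReal.ofReal_tsum_of_nonneg (fun n => by positivity) h1]
    exact ENNReal.ofReal_ne_top
  have hae := ae_lt_top' (AEMeasurable.tsum hgm) hsum
  filter_upwards [hae, hball] with o ho hbo
  have h1 : Tendsto (fun n => g n o) atTop (𝓝 0) := ENNReal.tendsto_atTop_zero_of_tsum_ne_top ho.ne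
  have h2 : Tendsto (fun n => (g n o).toReal) atTop (𝓝 0) := by
    have := (ENNReal.tendsto_toReal ENNReal.zero_ne_top).comp h1
    rw [ENNReal.toReal_zero] at this
    exact this
  have h3 : Tendsto (fun n : ℕ => (S (n ^ 2) o / (n : ℝ) ^ 2) ^ 2) atTop (𝓝 0) := by
    refine h2.congr fun n => ?_
    simp only [hg]
    exact ENNReal.toReal_ofReal (sq_nonneg _)
  have h4 : Tendsto (fun n : ℕ => S (n ^ 2) o / (n : ℝ) ^ 2) atTop (𝓝 0) := by
    have h5 := h3.sqrt
    rw [Real.sqrt_zero] at h5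
    refine (tendsto_zero_iff_abs_tendsto_zero _).mpr (h5.congr fun n => ?_)
    simp only [Function.comp_apply]
    exact Real.sqrt_sq_eq_abs _
  refine tendsto_of_squares (a := fun N => S N o) hK ?_ h4
  intro m n hmn
  have h5 : S n o = S m o + ∑ k ∈ Finset.Ico m n, Z k o := by
    simp only [hS]
    rw [Finset.sum_range_add_sum_Ico _ hmn]
  have h6 : |∑ k ∈ Finset.Ico m n, Z k o| ≤ K * ((n : ℝ) - m) := by
    refine (Finset.abs_sum_le_sum_abs _ _).trans ?_
    calc ∑ k ∈ Finset.Ico m n, |Z k o| ≤ ∑ _k ∈ Finset.Ico m n, K :=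
          Finset.sum_le_sum fun k _ => hbo k
      _ = K * ((n : ℝ) - m) := by
          rw [Finset.sum_const, Nat.card_Ico, nsmul_eq_mul, Nat.cast_sub hmn]; ring
  change |S n o| ≤ |S m o| + K * ((n : ℝ) - m)
  rw [h5]
  exact (abs_add_le _ _).trans (by linarith)

end Pool.Agent.X151.QC
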