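import Pool.Agent.X151.QC.Simple

/-! The spectrum of almost every conformal metric is simple. -/

set_option autoImplicit false
set_option linter.unusedSectionVars false
set_option linter.deprecated false

open Set Filter Topology MeasureTheory
open Pool.Agent.Y262.QE Pool.Agent.Y264.QR

noncomputable section

namespace Pool.Agent.X151.QC

theorem simple_form {M : Type} [MetricSpace M] [CompactSpace M] [MeasurableSpace M] [BorelSpace M]
    (μ : Measure M) [IsFiniteMeasure μ] [MeasurableSpace C(M, ℝ)] [BorelSpace C(M, ℝ)]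
    {H : Type} [NormedAddCommGroup H] [InnerProductSpace ℝ H]
    (i : H →L[ℝ] Lp ℝ 2 μ) (a : H →L[ℝ] H →L[ℝ] ℝ) (b : C(M, ℝ) → H →L[ℝ] H →L[ℝ] ℝ)
    (hSf : Sf μ i a) (hB : IsB μ i b) (hW : Wl μ a b) (e : C(M, ℝ) → ℕ → H)
    (E : C(M, ℝ) → ℕ → ℝ) (hEg : ∀ φ, Eg a (b φ) (e φ) (E φ)) (P : Measure C(M, ℝ))
    [IsProbabilityMeasure P] (S : Set C(M, ℝ))
    (hS : Dense (Submodule.span ℝ S : Set C(M, ℝ)))
    (hP : ∀ h ∈ S, ∀ t : ℝ, P.map (fun φ => φ + t • h) ≪ P) :
    ∀ᵐ φ ∂P, ∀ p q : ℕ, p ≠ q → E φ p = E φ q → E φ q = 0 := by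
  classical
  obtain ⟨b', hB', hFmb, hpos, hcomp, hk⟩ := tFm M μ H i a hSf
  have hbb : b' = b := by
    funext φ
    ext u v
    rw [hB' φ u v, hB φ u v]
  subst hbb
  obtain ⟨hnn, hmon, hexp, hcont, hdich⟩ := tLip M μ H a b' hFmb hcomp
  obtain ⟨S₀, hS₀S, hS₀c, hS₀d⟩ :=
    (TopologicalSpace.IsSeparable.of_separableSpace S).exists_countable_dense_subset
  have hcm := Pool.Agent.Y689.QR.cm M μ
  have hdiff : ∀ h ∈ S₀, ∀ᵐ φ ∂P, ∀ j,
      DifferentiableAt ℝ (fun t : ℝ => Ev a (b' (φ + t • h)) j) 0 := by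
    intro h hh
    rw [ae_all_iff]
    intro j
    have hmeas : MeasurableSet
        {φ | DifferentiableAt ℝ (fun t : ℝ => Ev a (b' (φ + t • h)) j) 0}ᶜ :=
      ((hcm.1 _ (hcont j) h).2).compl
    have h1 := Pool.Agent.Y941.QR.qn C(M, ℝ) P (fun (t : ℝ) φ => φ + t • h)
      (hcm.2.2.2 P h (hP h (hS₀S hh))) _ hmeas ?_
    · exact h1
    · intro φ
      have h2 := (tOneP M μ H i a b' hSf hB hW φ h (fun t => e (φ + t • h))
        (fun t => E (φ + t • h)) (fun t => hEg _)).1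
      filter_upwards [h2] with t ht
      rw [mem_compl_iff, not_not, mem_setOf_eq]
      have h3 := (ht j).differentiableAt
      have h4 : (fun τ : ℝ => Ev a (b' (φ + t • h + τ • h)) j) =
          (fun s : ℝ => Ev a (b' (φ + s • h)) j) ∘ fun τ : ℝ => t + τ := by
        funext τ
        simp only [Function.comp_apply]
        rw [add_smul, add_assoc]
      rw [h4]
      refine DifferentiableAt.comp (0 : ℝ) ?_ (by fun_prop)
      rw [add_zero]
      exact h3
  have hall := (ae_ball_iff hS₀c).mpr hdiff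
  filter_upwards [hall] with φ hφ p q hpq hpqE
  by_contra hne
  have hEv : ∀ j, Ev a (b' φ) j = E φ j := Pool.Agent.Y592.QE.mm H a (b' φ) (hFmb φ) (e φ) (E φ) (hEg φ)
  -- the bottom of the cluster
  have hex : ∃ l, E φ l = E φ q := ⟨q, rfl⟩
  set i₀ := Nat.find hex with hi₀
  have hi1 : E φ i₀ = E φ q := Nat.find_spec hex
  have hi2 : ∀ l, l < i₀ → E φ l < E φ i₀ := by
    intro l hl
    refine lt_of_le_of_ne ((hEg φ).mono hl.le) fun h1 => ?_
    exact Nat.find_min hex hl (h1.trans hi1)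
  have key : ∀ e' : ℕ → H, Eg a (b' φ) e' (E φ) → ∀ j, E φ j = E φ q → ∀ h ∈ S₀,
      kap μ i h φ (e' j) = -(deriv (fun t : ℝ => Ev a (b' (φ + t • h)) i₀) 0) / E φ q := by
    intro e' he' j hj h hh
    obtain ⟨k, hk1, hk2, hk3⟩ := hk h
    have h1 := (hφ h hh i₀).hasDerivAt
    have h2 := der_unique (E := E φ i₀) (κ := k φ (e' j) (e' j)) h1 ?_ ?_
    · rw [h2, (hk2 φ (e' j)).1, hi1]
      field_simp
    · simp only [zero_smul, add_zero]
      exact hEv i₀
    · intro ε hε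
      obtain ⟨δ, hδ, h3⟩ := tDer0 H a (b' φ) (hFmb φ) e' (E φ) he' (k φ) ‖h‖ (hk1 φ)
        (fun v => (hk2 φ v).2) i₀ j (hi1.trans hj.symm) hi2 ε hε
      exact ⟨δ, hδ, fun τ hτ => h3 τ hτ (b' (φ + τ • h)) fun v => hk3 φ v τ⟩
  -- equality of the masses on all functions
  have hclose : ∀ v w : H, (∀ h ∈ S₀, kap μ i h φ v = kap μ i h φ w) →
      ∀ f : C(M, ℝ), kap μ i f φ v = kap μ i f φ w := by
    intro v w hvw
    have hbd : ∀ (f : C(M, ℝ)) (v : H), |kap μ i f φ v| ≤ ‖f‖ * b' φ v v := fun f v => by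
      obtain ⟨k, -, hk2, -⟩ := hk f
      have := hk2 φ v
      rw [this.1] at this
      exact this.2
    let L : C(M, ℝ) →ₗ[ℝ] ℝ :=
      { toFun := fun f => kap μ i f φ v - kap μ i f φ w
        map_add' := fun f g => by
          rw [Pool.Agent.Y378.QR.kap_add, Pool.Agent.Y378.QR.kap_add]; ring
        map_smul' := fun c f => by
          rw [Pool.Agent.Y378.QR.kap_smul, Pool.Agent.Y378.QR.kap_smul, RingHom.id_apply,
            smul_eq_mul]; ring }
    let Lc : C(M, ℝ) →L[ℝ] ℝ := L.mkContinuous (b' φ v v + b' φ w w) (fun f => by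
      change ‖kap μ i f φ v - kap μ i f φ w‖ ≤ _
      rw [Real.norm_eq_abs]
      calc |kap μ i f φ v - kap μ i f φ w| ≤ |kap μ i f φ v| + |kap μ i f φ w| := abs_sub _ _
        _ ≤ ‖f‖ * b' φ v v + ‖f‖ * b' φ w w := add_le_add (hbd f v) (hbd f w)
        _ = (b' φ v v + b' φ w w) * ‖f‖ := by ring)
    have hL : ∀ f, Lc f = kap μ i f φ v - kap μ i f φ w := fun f => rfl
    have h1 : ∀ f ∈ S, Lc f = 0 := by
      have hcl : IsClosed {f | Lc f = 0} := isClosed_eq Lc.continuous continuous_const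
      intro f hf
      exact hcl.closure_subset_iff.mpr (fun g hg => by
        change Lc g = 0
        rw [hL, hvw g hg, sub_self]) (hS₀d hf)
    have h2 : ∀ f ∈ Submodule.span ℝ S, Lc f = 0 := by
      intro f hf
      have : Submodule.span ℝ S ≤ LinearMap.ker (Lc : C(M, ℝ) →ₗ[ℝ] ℝ) := by
        rw [Submodule.span_le]
        exact fun g hg => h1 g hg
      exact this hf
    intro f
    have h3 : Lc = 0 := by
      refine ContinuousLinearMap.ext fun f => ?_
      have hcl : IsClosed {f | Lc f = 0} := isClosed_eq Lc.continuous continuous_const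
      exact hcl.closure_subset_iff.mpr (fun g hg => h2 g hg) (hS f)
    have h4 := hL f
    rw [h3] at h4
    have h5 : (0 : C(M, ℝ) →L[ℝ] ℝ) f = 0 := rfl
    rw [h5] at h4
    linarith
  have he := hEg φ
  have hr := rt_eg he hpq hpqE
  have h1 := hclose (e φ p) (e φ q) fun h hh => by
    rw [key _ he p hpqE h hh, key _ he q rfl h hh]
  have h2 := hclose (rt (e φ) p q p) (rt (e φ) p q q) fun h hh => by
    rw [key _ hr p hpqE h hh, key _ hr q rfl h hh]
  have h3 := no_pair μ i φ (e φ) hpq h1 h2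
  have h4 := he.orth p p
  rw [if_pos rfl, hB φ] at h4
  have h5 : ∫ x, Real.exp (φ x) * (i (e φ p) x * i (e φ p) x) ∂μ = 0 := by
    refine integral_eq_zero_of_ae ?_
    filter_upwards [h3] with x hx
    rw [hx, mul_zero, mul_zero]; rfl
  rw [h5] at h4
  exact zero_ne_one h4

end Pool.Agent.X151.QC
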